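import Pool.Agent.Helper808.Quart.Main

set_option autoImplicit false

namespace Pool.Agent.Results.MP_9b5ce2_nt.NecessaryConditions

open Pool.Agent.Helper808.Quart

/-- **Main result.** (1) An admissible `c` is `1` or `2` modulo `16` and all its odd prime factors
are `1` modulo `8`. (2) In a solution of `x⁴ + y⁴ = c z⁴` with `x, y` coprime all prime factors of
`z` are `1` modulo `8`. (3) There are infinitely many admissible `c`. -/
theorem result :
    (∀ c : ℤ, Admissible c → (c % 16 = 1 ∨ c % 16 = 2) ∧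
      ∀ p : ℕ, p.Prime → p ≠ 2 → (p : ℤ) ∣ c → p % 8 = 1) ∧
    (∀ x y z c : ℤ, IsCoprime x y → x ^ 4 + y ^ 4 = c * z ^ 4 →
      ∀ p : ℕ, p.Prime → (p : ℤ) ∣ z → p % 8 = 1) ∧
    {c : ℤ | Admissible c}.Infinite :=
  ⟨necessary, fun x y z c h e p hp hd => zprimes x y z c h e p hp hd, infinite⟩

end Pool.Agent.Results.MP_9b5ce2_nt.NecessaryConditions
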